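import Pool.Agent.Helper18_PSS.AllS0
import Pool.Agent.Helper66_PFD.Asm
import Pool.Agent.Helper66_PFD.AsmPmz
import Pool.Agent.Helper41_PFC.DIM
import Pool.Agent.Helper20_PSS.FIT5
import Pool.Agent.Helper84_PSS.PCX
import Pool.Agent.Helper10_PSS.ZSM
import Pool.Agent.Helper85_PSS.ZCF
import Pool.Agent.Helper68_PSS.COE
import Pool.Agent.Helper44_PSS.NAK
import Pool.Agent.Helper95_PSS.MDV
import Pool.Agent.Helper70_PSS.RYN
import Pool.Agent.Helper55_PSS.LEQ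
import Pool.Agent.Helper1_PSS.LSU
import Pool.Agent.Helper80_PSS.LCN
import Pool.Agent.Helper13_PSS.LBR
import Pool.Agent.Helper97_PSS.RTN
import Pool.Agent.Helper32_PSS.RBK
import Pool.Agent.Helper68_PSS.BPT
import Pool.Agent.Helper7_PSS.BOR
import Pool.Agent.Helper37_PSS.STB
import Pool.Agent.Helper81_PSS.SGN
import Pool.Agent.Helper37_PSS.TPL
import Pool.Agent.Helper6_PSS.TPJ
import Pool.Agent.Helper94_PSS.RFJ
import Pool.Agent.Helper18_PSS.CLJ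
import Pool.Agent.Helper18_PSS.CNW
import Pool.Agent.Helper18_PSS.RDL
import Pool.Agent.Helper39_PSS.LCQ
import Pool.Agent.Helper39_PSS.LNP
import Pool.Agent.Helper46_PSS.LNS
import Pool.Agent.Helper5_PSS.LNT
import Pool.Agent.Helper62_PSS.LNL
import Pool.Agent.Helper29_PSS.LNW
import Pool.Agent.Helper23_PSS.NQA
import Pool.Agent.Helper77_PSS.NQF
import Pool.Agent.Helper70_PSS.NQP
import Pool.Agent.Helper8_PSS.NQR
import Pool.Agent.Helper19_PSS.NQS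
import Pool.Agent.Helper8_PSS.NQB
import Pool.Agent.Helper77_PSS.NQT
import Pool.Agent.Helper8_PSS.NZS
import Pool.Agent.Helper8_PSS.NDL
import Pool.Agent.Helper10_PSS.NDM
import Pool.Agent.Helper83_PSS.LCP
import Pool.Agent.Helper83_PSS.KLN
import Pool.Agent.Helper53_PSS.LQX
import Pool.Agent.Helper18_PSS.NIL
import Pool.Agent.Helper10_PSS.LKC
import Pool.Agent.Helper27_PSS.VON
import Pool.Agent.Helper10_PSS.FRC
import Pool.Agent.Helper18_PSS.BAS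

/-!
# Squad PSS, block S5: assembly (`bas_ : BasStmt` without hypotheses)
-/

noncomputable section

namespace Pool.Agent.PSS.H66

open Pool.Agent.PSS.S5 Pool.Agent.PSS.S5.H18

theorem s5_fit : FitStmt := S5.H20.fit

theorem s5_pcx : PcxStmt := S5.H84.pcx s5_fit

theorem s5_zsm : ZsmStmt := H10.zsm

theorem s5_zcf : ZcfStmt := S5.H85.zcf

theorem s5_coe : CoeStmt := H68.coe

theorem s5_nak : NakStmt := S5.H44.nak

theorem s5_mdv : MdvStmt := S5.H95.mdv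

theorem s5_ryn : RynStmt := S5.H70.ryn

theorem s5_leq : LeqStmt := S5.H55.leq

theorem s5_lsu : LsuStmt := S5.H1.lsu bki_

theorem s5_lcn : LcnStmt := S5.H80.lcn

theorem s5_lbr : LbrStmt := S5.H13.lbr s5_leq bbk_

theorem s5_rtn : RtnStmt := S5.H97.rtn dfr_ drf_ rfu_ qor_

theorem s5_rbk : RbkStmt := S5.H32.rbk s5_rtn

theorem s5_bpt : BptStmt := H68.bpt s5_rbk s5_fit zrt_ bki_

theorem s5_bor : BorStmt := S5.H7.bor s5_bpt s5_leq s5_lsu s5_lcn mck_ bpu_ bqx_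

theorem s5_stb : StbStmt := H37.stb s5_bor s5_lbr s5_lcn s5_pcx bcl_ bqx_

theorem s5_sgn : SgnStmt := S5.H81.sgn

theorem s5_tpl : TplStmt := H37.tpl s5_sgn s5_nak

theorem s5_tpj : TpjStmt := S5.H6.tpj s5_tpl s5_lbr mck_ bpu_ bqx_ zrt_

theorem s5_rfj : RfjStmt := S5.H94.rfj dfr_ drf_

theorem s5_clj : CljStmt := clj s5_stb s5_tpj s5_rfj

theorem s5_rdl : RdlStmt := rdl s5_pcx s5_zsm s5_zcf s5_coe s5_bpt s5_rtn cnw s5_clj

theorem s5_lcq : LcqStmt := S5.H39.lcq bpu_ bbk_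

theorem s5_lnp : LnpStmt := S5.H39.lnp nfp_ dfr_ nfd_ drf_

theorem s5_lns : LnsStmt := H46.lns nfr_ frb_

theorem s5_lnt : LntStmt := H5.lnt frb_

theorem s5_lnl : LnlStmt := S5.H62.lnl s5_lnp s5_lnt s5_nak

theorem s5_lnw : LnwStmt := S5.H29.lnw s5_lnp s5_lns s5_lnl

theorem s5_nqt : NqtStmt :=
  S5.H77T.nqt S5.H23.nqa (S5.H77.nqf frb_) S5.H70.Nqp.nqp S5.H8.nqr S5.H19.nqs S5.H8.nqb

theorem s5_nzs : NzsStmt := S5.H8.nzs bqx_ bpu_ mck_

theorem s5_ndm : NdmStmt := H10.ndm (S5.H8.ndl PFC.H41.dim) s5_mdv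

theorem s5_kln : KlnStmt := S5.H83.kln S5.H83.lcp PFD.H66.pmz_ PFD.H66.kal_

theorem s5_nil : NilStmt := nil s5_lcq s5_nqt S5.H53.lqx s5_kln s5_nzs s5_ryn s5_ndm bqx_

theorem s5_lkc : LkcStmt := H10.lkc s5_lcq s5_nil S5.H53.lqx bqx_

theorem s5_lkn : LknStmt := S5.H29.lkn s5_kln s5_lkc

/-- the base case -/
theorem bas_ : BasStmt := bas s5_rdl s5_lkn s5_lnw S5.H27.von H10.frc

end Pool.Agent.PSS.H66
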