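import Pool.Agent.Helper66_PSS.AsmG
import Pool.Agent.Helper66_PSS.AsmS5
import Pool.Agent.Helper11_PSS.LenA
import Pool.Agent.PSS.AllS
import Pool.Agent.PSS.AllS6
import Pool.Agent.PSS.Ats

/-!
# Squad PSS: theorem (S), without hypotheses

`ats_ : AtsStmt` (the theorem for algebras), `sto_ : StoStmt` (the numbers of the ordinary characters of
the blocks), `fns_ : FnsStmt` (the final theorem).
-/

noncomputable section

namespace Pool.Agent.PSS.H66

theorem ats_ : AtsStmt := ats All.stp bas_

theorem sto_ : StoStmt := AllS6.stoalg_ ats_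

theorem fns_ : FnsStmt := fns_of H11.len_ sto_

end Pool.Agent.PSS.H66
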