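import Pool.Agent.Helper66_PSS.Fns
import Pool.Agent.Helper33_PSS.QRX
import Pool.Agent.Helper21_PSS.QRJ
import Pool.Agent.Helper77_PSS.QRQ
import Pool.Agent.Helper49_PSS.TWN
import Pool.Agent.Helper15_PSS.EXC
import Pool.Agent.Helper63_PSS.FRT
import Pool.Agent.Helper24_PSS.LTX
import Pool.Agent.Helper60_PSS.IZX
import Pool.Agent.Helper86_PSS.QLN
import Pool.Agent.Helper16_PSS.MNN
import Pool.Agent.Helper10_PSS.ADS
import Pool.Agent.Helper44_PSS.CLN
import Pool.Agent.PFD.AsmD5b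

/-!
# Squad PSS, group level: assembly

`fns_of`: the final theorem from LEN and STO.
-/

noncomputable section

namespace Pool.Agent.PSS.H66

open Pool.Agent.PP

theorem mnn_ : MnnStmt :=
  H16.mnn H33.qrx H21.qrj PFD.chr_ PFD.H64.yad PFD.H94b.bnr T3.lcj_

theorem ads_ : AdsStmt := H10.ads H49.cyq

theorem cln_ : ClnStmt := H44.cln H49.cyq PFD.edf_ PFD.H6.lke K9.H34.inx

theorem qrq_ : QrqStmt := H77.qrq T3.qt1_ T8.qt3_

theorem exc_ : ExcStmt := H15.exc PFD.H94b.bnr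

theorem fns_of (len : LenStmt) (sto : StoStmt) : FnsStmt :=
  fns (mnn_ KS ads_ (len KS ads_ sto)) cln_ T3.flt_ T3.psg_

end Pool.Agent.PSS.H66
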